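import Pool.Agent.helper69.LN.TSpec

/-!
# Project LN (MP_069684_lc), row TFO
-/

set_option autoImplicit false

namespace Pool.Agent.LN

open Finset Pool.Agent.helper38.Neg Pool.Agent.helper55.NT

theorem TFO_agree (n u : ℕ) (x y : Fin n → Bool) : AgreeFrom u x y ↔ AgreeFrom (min u n) x y := by
  constructor
  · intro h i hi
    exact h i (by have := i.2; omega)
  · intro h i hi
    exact h i (by have := i.2; omega)

theorem TFO : TFO_stmt := by
  refine ⟨?_, ?_, TFO_agree⟩
  · intro n s u C h
    refine ⟨∅, by simp, fun x y hxy i _ => ?_⟩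
    rw [h x y hxy]
  · rintro n s u r r' C ⟨S, hS, h⟩ hr
    exact ⟨S, hS.trans hr, h⟩

end Pool.Agent.LN
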