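import Pool.Agent.helper69.LN.Spec

/-!
# Project LN, row PMO
-/

set_option autoImplicit false

namespace Pool.Agent.LN

theorem PMO : PMO_stmt := by
  intro c u A hu m x y _ hag hx
  obtain ⟨n, h, hA⟩ := hx
  subst h
  refine ⟨n, rfl, ?_⟩
  have he : (fun i : Fin n => y (Fin.cast rfl (Fin.natAdd (n + c) i))) =
      fun i : Fin n => x (Fin.cast rfl (Fin.natAdd (n + c) i)) := by
    funext i
    refine (hag _ ?_).symm
    have h1 : ((Fin.cast rfl (Fin.natAdd (n + c) i) : Fin (n + c + n)) : ℕ) = n + c + i := rfl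
    rw [h1]
    exact (hu n).trans (Nat.le_add_right _ _)
  rw [he]
  exact hA

end Pool.Agent.LN
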